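import Mathlib
import Pool.Agent.H341Q.SDDefs
import Pool.Agent.H341Q.SDMain

/-!
# Strongly distributive posets that are not strategically closed

For every uncountable cardinal `κ` there is (in ZFC) a poset which is strongly `<κ`-distributive
but not `κ`-strategically closed; COM does not even have a winning strategy in the game of length
`ω + 1`.

Proof.  Let `ρ = κ⁺`, `μ = 2 ^ ρ` and `W = μ⁺`.  By Ulam's theorem there are `ρ⁺` disjoint
stationary sets of points of cofinality `ω` in `W`.  If each of them met every closed copy of `ρ`
in some club, then the first `ρ` points of the intersection of these clubs would meet more than `ρ`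
disjoint sets.  So for one of these sets, `S`, every club contains a closed copy of `ρ` disjoint
from `S`.  Let `P` be the set of closed subsets of `W` of size less than `ρ` which are disjoint from
`S`, ordered by end-extension.  Then `P` is strongly `<ρ`-distributive, and COM has no winning
strategy in the game of length `ω + 1`, since INC can make sure that the supremum of the first `ω`
conditions is in `S`.
-/

namespace Pool.Agent.Results.MP_77bbd4_lc.NotStrategicallyClosed

open Cardinal Ordinal Pool.Agent.H341Q.SD

universe u

theorem result (κ : Cardinal.{u}) (hκ : ℵ₀ < κ) :
    ∃ (P : Type u) (_ : PartialOrder P) (_ : OrderTop P),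
      StronglyDistributive P κ ∧ ¬ ComWins P κ.ord ∧ ¬ ComWins P (ω + 1) :=
  main κ hκ

end Pool.Agent.Results.MP_77bbd4_lc.NotStrategicallyClosed
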